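import Mathlib

set_option autoImplicit false

/-!
# MP_d10f6f_co: weak rainbow saturation numbers of cliques

For every `r ≥ 3` the weak rainbow saturation number of `K_r` satisfies
`(r - 1) n ≤ 2 * rwsat(n, K_r)` (for `n ≥ r`) and `rwsat(n, K_r) ≤ (r - 1) n` (for all `n`); in
particular `rwsat(n, K_r) ≤ r n + C` for all `n`, with `C = 0`.
-/

namespace Pool.Agent.Results.MP_d10f6f_co.WeakRainbow

/-- `Col G χ e c i s k`: in the coloured graph `G + e_0 + … + e_i` (where the edges of `G` are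
coloured by `χ` and `e_j` has colour `c_j`) the pair `s` is an edge of colour `k` -/
def Col {n m : ℕ} (G : SimpleGraph (Fin n)) (χ : Sym2 (Fin n) → ℕ) (e : Fin m → Sym2 (Fin n))
    (c : Fin m → ℕ) (i : Fin m) (s : Sym2 (Fin n)) (k : ℕ) : Prop :=
  (s ∈ G.edgeSet ∧ χ s = k) ∨ ∃ j, j ≤ i ∧ e j = s ∧ c j = k

/-- `S` is the vertex set of a rainbow clique in the coloured graph `G + e_0 + … + e_i` -/
def RainbowClique {n m : ℕ} (G : SimpleGraph (Fin n)) (χ : Sym2 (Fin n) → ℕ)
    (e : Fin m → Sym2 (Fin n)) (c : Fin m → ℕ) (i : Fin m) (S : Finset (Fin n)) : Prop :=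
  (∀ a ∈ S, ∀ b ∈ S, a ≠ b → ∃ k, Col G χ e c i s(a, b) k) ∧
  (∀ a ∈ S, ∀ b ∈ S, ∀ a' ∈ S, ∀ b' ∈ S, a ≠ b → a' ≠ b' → s(a, b) ≠ s(a', b') →
    ∀ k, ¬ (Col G χ e c i s(a, b) k ∧ Col G χ e c i s(a', b') k))

/-- `(G, χ)` is weakly `K_r`-rainbow saturated in `K_n` -/
def WeaklyRainbowSaturated {n : ℕ} (r : ℕ) (G : SimpleGraph (Fin n)) (χ : Sym2 (Fin n) → ℕ) :
    Prop :=
  ∃ (m : ℕ) (e : Fin m → Sym2 (Fin n)), Function.Injective e ∧
    (∀ s : Sym2 (Fin n), s ∈ Set.range e ↔ ¬ s.IsDiag ∧ s ∉ G.edgeSet) ∧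
    ∀ c : Fin m → ℕ, Function.Injective c → ∀ i : Fin m,
      ∃ S : Finset (Fin n), S.card = r ∧ (∀ v ∈ e i, v ∈ S) ∧ RainbowClique G χ e c i S

/-- the weak rainbow saturation number `rwsat(n, K_r)` -/
noncomputable def rwsat (n r : ℕ) : ℕ :=
  sInf {k | ∃ (G : SimpleGraph (Fin n)) (χ : Sym2 (Fin n) → ℕ),
    WeaklyRainbowSaturated r G χ ∧ G.edgeSet.ncard = k}

/-! ### Upper bound -/

/-- the join of a complete graph on the first `r - 1` vertices with an edgeless graph -/
def joinGraph (n r : ℕ) : SimpleGraph (Fin n) where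
  Adj a b := a ≠ b ∧ (a.val < r - 1 ∨ b.val < r - 1)
  symm := ⟨fun _ _ h => ⟨h.1.symm, h.2.symm⟩⟩
  loopless := ⟨fun _ h => h.1 rfl⟩

noncomputable def injCol (n : ℕ) (s : Sym2 (Fin n)) : ℕ := (Fintype.equivFin (Sym2 (Fin n)) s).val

lemma injCol_inj (n : ℕ) : Function.Injective (injCol n) := by
  intro s t h
  exact (Fintype.equivFin (Sym2 (Fin n))).injective (Fin.ext h)

lemma joinGraph_saturated (n r : ℕ) (hr : 3 ≤ r) :
    WeaklyRainbowSaturated r (joinGraph n r) (injCol n) := by
  classical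
  set F : Finset (Sym2 (Fin n)) :=
    Finset.univ.filter (fun s => ¬ s.IsDiag ∧ s ∉ (joinGraph n r).edgeSet) with hF
  have hmemF : ∀ s, s ∈ F ↔ ¬ s.IsDiag ∧ s ∉ (joinGraph n r).edgeSet := by
    intro s; simp [hF]
  refine ⟨F.card, fun i => (F.equivFin.symm i).val, ?_, ?_, ?_⟩
  · intro i j h
    exact F.equivFin.symm.injective (Subtype.ext h)
  · intro s
    rw [← hmemF]
    constructor
    · rintro ⟨i, rfl⟩
      exact (F.equivFin.symm i).2
    · intro hs
      exact ⟨F.equivFin ⟨s, hs⟩, by simp⟩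
  · intro c hc i
    set e : Fin F.card → Sym2 (Fin n) := fun i => (F.equivFin.symm i).val with he
    have heF : ∀ j, e j ∈ F := fun j => (F.equivFin.symm j).2
    have heinj : Function.Injective e := by
      intro i j h
      exact F.equivFin.symm.injective (Subtype.ext h)
    obtain ⟨v, w, hvw⟩ : ∃ v w, e i = s(v, w) := by
      induction hei : e i using Sym2.ind with
      | _ v w => exact ⟨v, w, rfl⟩
    have hmem := (hmemF _).1 (heF i)
    rw [hvw] at hmem
    have hne : v ≠ w := by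
      intro h; exact hmem.1 (by simp [h])
    have hnadj : ¬ (joinGraph n r).Adj v w := fun h => hmem.2 ((SimpleGraph.mem_edgeSet _).2 h)
    have hv : r - 1 ≤ v.val := by
      by_contra h
      exact hnadj ⟨hne, Or.inl (by omega)⟩
    have hw : r - 1 ≤ w.val := by
      by_contra h
      exact hnadj ⟨hne, Or.inr (by omega)⟩
    -- the common neighbours
    set N : Finset (Fin n) := Finset.univ.filter (fun a => a.val < r - 1) with hN
    have hmemN : ∀ a, a ∈ N ↔ a.val < r - 1 := by intro a; simp [hN]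
    have hNcard : N.card = r - 1 := by
      have h1 : N = Finset.univ.map (Fin.castLEEmb (show r - 1 ≤ n by have := v.2; omega)) := by
        ext a
        rw [hmemN]
        simp only [Finset.mem_map, Finset.mem_univ, true_and, Fin.castLEEmb_apply]
        constructor
        · intro ha
          exact ⟨⟨a.val, ha⟩, by ext; simp⟩
        · rintro ⟨b, rfl⟩
          simp
      rw [h1, Finset.card_map, Finset.card_univ, Fintype.card_fin]
    have hvN : v ∉ N := by rw [hmemN]; omega
    have hwN : w ∉ N := by rw [hmemN]; omega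
    -- the vertex to avoid
    obtain ⟨t, htN, ht⟩ : ∃ t ∈ N, ∀ a b, (joinGraph n r).Adj a b → injCol n s(a, b) = c i →
        a = t ∨ b = t := by
      by_cases hex : ∃ a b, (joinGraph n r).Adj a b ∧ injCol n s(a, b) = c i
      · obtain ⟨a, b, hab, hcol⟩ := hex
        have hkey : ∀ t, t = a ∨ t = b → ∀ a' b', (joinGraph n r).Adj a' b' →
            injCol n s(a', b') = c i → a' = t ∨ b' = t := by
          intro t htab a' b' _ h'
          have := injCol_inj n (h'.trans hcol.symm)
          rw [Sym2.eq_iff] at this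
          rcases htab with rfl | rfl <;> rcases this with ⟨h1, h2⟩ | ⟨h1, h2⟩
          · exact Or.inl h1
          · exact Or.inr h2
          · exact Or.inr h2
          · exact Or.inl h1
        rcases hab.2 with h | h
        · exact ⟨a, (hmemN _).2 h, hkey a (Or.inl rfl)⟩
        · exact ⟨b, (hmemN _).2 h, hkey b (Or.inr rfl)⟩
      · have : N.Nonempty := by
          rw [← Finset.card_pos, hNcard]; omega
        obtain ⟨t, ht⟩ := this
        exact ⟨t, ht, fun a b h1 h2 => absurd ⟨a, b, h1, h2⟩ hex⟩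
    have hSmem : ∀ a, a ∈ insert v (insert w (N.erase t)) ↔ a = v ∨ a = w ∨ (a ≠ t ∧ a ∈ N) := by
      intro a; simp
    -- pairs in the clique are edges of the join or the new edge
    have hpair : ∀ a ∈ insert v (insert w (N.erase t)), ∀ b ∈ insert v (insert w (N.erase t)),
        a ≠ b → ((joinGraph n r).Adj a b ∧ a ≠ t ∧ b ≠ t) ∨
          (s(a, b) = e i ∧ ¬ (joinGraph n r).Adj a b) := by
      intro a ha b hb hab
      rw [hSmem] at ha hb
      have hvt : v ≠ t := fun h => hvN (h ▸ htN)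
      have hwt : w ≠ t := fun h => hwN (h ▸ htN)
      rcases ha with rfl | rfl | ⟨ha1, ha2⟩
      · rcases hb with rfl | rfl | ⟨hb1, hb2⟩
        · exact absurd rfl hab
        · exact Or.inr ⟨hvw.symm, hnadj⟩
        · exact Or.inl ⟨⟨hab, Or.inr ((hmemN _).1 hb2)⟩, hvt, hb1⟩
      · rcases hb with rfl | rfl | ⟨hb1, hb2⟩
        · exact Or.inr ⟨by rw [hvw, Sym2.eq_swap], fun h => hnadj h.symm⟩
        · exact absurd rfl hab
        · exact Or.inl ⟨⟨hab, Or.inr ((hmemN _).1 hb2)⟩, hwt, hb1⟩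
      · refine Or.inl ⟨⟨hab, Or.inl ((hmemN _).1 ha2)⟩, ha1, ?_⟩
        rcases hb with rfl | rfl | ⟨hb1, hb2⟩
        · exact hvt
        · exact hwt
        · exact hb1
    -- colours of the pairs
    have hcolG : ∀ a b, (joinGraph n r).Adj a b → ∀ k,
        Col (joinGraph n r) (injCol n) e c i s(a, b) k → injCol n s(a, b) = k := by
      intro a b hab k hk
      rcases hk with ⟨_, h⟩ | ⟨j, _, hj, _⟩
      · exact h
      · exfalso
        have := ((hmemF _).1 (heF j)).2
        rw [hj] at this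
        exact this ((SimpleGraph.mem_edgeSet _).2 hab)
    have hcolE : ∀ a b, s(a, b) = e i → ¬ (joinGraph n r).Adj a b → ∀ k,
        Col (joinGraph n r) (injCol n) e c i s(a, b) k → c i = k := by
      intro a b hab hnab k hk
      rcases hk with ⟨h, _⟩ | ⟨j, _, hj, hjk⟩
      · exact absurd ((SimpleGraph.mem_edgeSet _).1 h) hnab
      · rw [hab] at hj
        rw [heinj hj] at hjk
        exact hjk
    refine ⟨insert v (insert w (N.erase t)), ?_, ?_, ?_, ?_⟩
    · rw [Finset.card_insert_of_notMem, Finset.card_insert_of_notMem, Finset.card_erase_of_mem htN,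
        hNcard]
      · omega
      · intro h; exact hwN (Finset.mem_of_mem_erase h)
      · intro h
        rcases Finset.mem_insert.1 h with h | h
        · exact hne h
        · exact hvN (Finset.mem_of_mem_erase h)
    · intro x hx
      change x ∈ e i at hx
      rw [hvw, Sym2.mem_iff] at hx
      rw [hSmem]
      rcases hx with rfl | rfl
      · exact Or.inl rfl
      · exact Or.inr (Or.inl rfl)
    · intro a ha b hb hab
      rcases hpair a ha b hb hab with ⟨h, -, -⟩ | ⟨h, h'⟩
      · exact ⟨_, Or.inl ⟨(SimpleGraph.mem_edgeSet _).2 h, rfl⟩⟩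
      · exact ⟨_, Or.inr ⟨i, le_refl _, h.symm, rfl⟩⟩
    · intro a ha b hb a' ha' b' hb' hab hab' hdist k hk
      obtain ⟨hk1, hk2⟩ := hk
      rcases hpair a ha b hb hab with ⟨h, h1, h2⟩ | ⟨h, h'⟩ <;>
        rcases hpair a' ha' b' hb' hab' with ⟨g, g1, g2⟩ | ⟨g, g'⟩
      · exact hdist (injCol_inj n ((hcolG a b h k hk1).trans (hcolG a' b' g k hk2).symm))
      · have e1 := hcolG a b h k hk1
        have e2 := hcolE a' b' g g' k hk2
        rcases ht a b h (e1.trans e2.symm) with h3 | h3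
        · exact h1 h3
        · exact h2 h3
      · have e1 := hcolE a b h h' k hk1
        have e2 := hcolG a' b' g k hk2
        rcases ht a' b' g (e2.trans e1.symm) with h3 | h3
        · exact g1 h3
        · exact g2 h3
      · exact hdist (h.trans g.symm)

lemma joinGraph_ncard (n r : ℕ) : (joinGraph n r).edgeSet.ncard ≤ (r - 1) * n := by
  classical
  set N : Finset (Fin n) := Finset.univ.filter (fun a => a.val < r - 1) with hN
  have hsub : (joinGraph n r).edgeSet ⊆
      ((N ×ˢ (Finset.univ : Finset (Fin n))).image (fun p => s(p.1, p.2)) : Finset _) := by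
    intro s hs
    induction s using Sym2.ind with
    | _ a b =>
      rw [SimpleGraph.mem_edgeSet] at hs
      simp only [Finset.coe_image, Set.mem_image, Finset.mem_coe, Finset.mem_product,
        Finset.mem_univ, and_true]
      rcases hs.2 with h | h
      · exact ⟨(a, b), by simpa [hN] using h, rfl⟩
      · exact ⟨(b, a), by simpa [hN] using h, Sym2.eq_swap⟩
  refine (Set.ncard_le_ncard hsub (Finset.finite_toSet _)).trans ?_
  rw [Set.ncard_coe_finset]
  refine Finset.card_image_le.trans ?_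
  rw [Finset.card_product, Finset.card_univ, Fintype.card_fin]
  refine Nat.mul_le_mul_right n ?_
  have : N.card = (N.image (fun a => a.val)).card :=
    (Finset.card_image_of_injective _ Fin.val_injective).symm
  rw [this]
  have h2 : N.image (fun a => a.val) ⊆ Finset.range (r - 1) := by
    intro x hx
    simp only [hN, Finset.mem_image, Finset.mem_filter, Finset.mem_univ, true_and] at hx
    obtain ⟨a, ha, rfl⟩ := hx
    exact Finset.mem_range.2 ha
  simpa using Finset.card_le_card h2

theorem rwsat_le (n r : ℕ) (hr : 3 ≤ r) : rwsat n r ≤ (r - 1) * n := by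
  refine le_trans ?_ (joinGraph_ncard n r)
  unfold rwsat
  exact Nat.sInf_le ⟨joinGraph n r, injCol n, joinGraph_saturated n r hr, rfl⟩

/-! ### Lower bound -/

lemma degree_lower {n r : ℕ} (hr : 3 ≤ r) (hn : r ≤ n) (G : SimpleGraph (Fin n))
    (χ : Sym2 (Fin n) → ℕ) (h : WeaklyRainbowSaturated r G χ) (v : Fin n) :
    r - 1 ≤ (G.neighborSet v).ncard := by
  classical
  obtain ⟨m, e, heinj, hrange, hc⟩ := h
  by_contra hdeg
  push Not at hdeg
  -- a missing edge at `v`
  have hmiss : ∃ w, w ≠ v ∧ ¬ G.Adj v w := by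
    by_contra hall
    push Not at hall
    have hsub : ({v}ᶜ : Set (Fin n)) ⊆ G.neighborSet v := by
      intro w hw
      exact hall w (by simpa using hw)
    have h1 := Set.ncard_le_ncard hsub (Set.toFinite _)
    have h2 : ({v}ᶜ : Set (Fin n)).ncard = n - 1 := by
      rw [Set.ncard_compl, Set.ncard_singleton, Nat.card_eq_fintype_card, Fintype.card_fin]
    omega
  obtain ⟨w, hwv, hnadj⟩ := hmiss
  have hwr : s(v, w) ∈ Set.range e := by
    rw [hrange]
    exact ⟨by simpa using hwv.symm, fun h => hnadj ((SimpleGraph.mem_edgeSet _).1 h)⟩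
  obtain ⟨i0, hi0⟩ := hwr
  -- the first added edge at `v`
  obtain ⟨i, hi, hmin⟩ : ∃ i : Fin m, v ∈ e i ∧ ∀ j : Fin m, v ∈ e j → i ≤ j := by
    have hne : (Finset.univ.filter (fun j : Fin m => v ∈ e j)).Nonempty :=
      ⟨i0, by simp [hi0]⟩
    refine ⟨(Finset.univ.filter (fun j : Fin m => v ∈ e j)).min' hne, ?_, ?_⟩
    · have := Finset.min'_mem _ hne
      simpa using this
    · intro j hj
      exact Finset.min'_le _ _ (by simpa using hj)
  obtain ⟨u, hu⟩ : ∃ u, e i = s(v, u) := by
    obtain ⟨u, hu⟩ := Sym2.mem_iff_exists.1 hi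
    exact ⟨u, hu⟩
  have hiG : s(v, u) ∉ G.edgeSet ∧ v ≠ u := by
    have := (hrange (e i)).1 ⟨i, rfl⟩
    rw [hu] at this
    exact ⟨this.2, by simpa using this.1⟩
  -- for every colouring the clique uses all the neighbours of `v`
  have hkey : ∀ c : Fin m → ℕ, Function.Injective c → ∃ S : Finset (Fin n), v ∈ S ∧ u ∈ S ∧
      RainbowClique G χ e c i S ∧ G.neighborSet v = ((S.erase v).erase u : Finset (Fin n)) := by
    intro c hcinj
    obtain ⟨S, hScard, hSv, hS⟩ := hc c hcinj i
    have hvS : v ∈ S := hSv v hi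
    have huS : u ∈ S := hSv u (by rw [hu]; simp)
    refine ⟨S, hvS, huS, hS, ?_⟩
    have hsub : (((S.erase v).erase u : Finset (Fin n)) : Set (Fin n)) ⊆ G.neighborSet v := by
      intro x hx
      simp only [Finset.coe_erase, Set.mem_sdiff, Finset.mem_coe, Set.mem_singleton_iff] at hx
      obtain ⟨⟨hxS, hxv⟩, hxu⟩ := hx
      obtain ⟨k, hk⟩ := hS.1 v hvS x hxS (Ne.symm hxv)
      rcases hk with ⟨hk, _⟩ | ⟨j, hji, hj, _⟩
      · exact (SimpleGraph.mem_edgeSet _).1 hk
      · exfalso
        have h1 : i ≤ j := hmin j (by rw [hj]; simp)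
        have h2 : j = i := le_antisymm hji h1
        rw [h2, hu, Sym2.eq_iff] at hj
        rcases hj with ⟨_, h3⟩ | ⟨h3, _⟩
        · exact hxu h3.symm
        · exact hxv h3.symm
    have hcardE : (((S.erase v).erase u : Finset (Fin n)) : Set (Fin n)).ncard = r - 2 := by
      rw [Set.ncard_coe_finset, Finset.card_erase_of_mem, Finset.card_erase_of_mem hvS, hScard]
      · omega
      · exact Finset.mem_erase.2 ⟨hiG.2.symm, huS⟩
    symm
    exact Set.eq_of_subset_of_ncard_le hsub (by omega) (Set.toFinite _)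
  -- there is a neighbour
  obtain ⟨S, hvS, huS, hS, hNS⟩ := hkey (fun j => j.val) Fin.val_injective
  obtain ⟨S', hS'card, hS'v, hS'⟩ := hc (fun j => j.val) Fin.val_injective i
  have hex : ∃ x, G.Adj v x := by
    by_contra hno
    push Not at hno
    have hvS' : v ∈ S' := hS'v v hi
    have : ∃ x ∈ S', x ≠ v ∧ x ≠ u := by
      by_contra hall
      push Not at hall
      have hsub : S' ⊆ {v, u} := by
        intro x hx
        by_cases hxv : x = v
        · simp [hxv]
        · simp [hall x hx hxv]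
      have := Finset.card_le_card hsub
      have h2 : ({v, u} : Finset (Fin n)).card ≤ 2 := Finset.card_le_two
      omega
    obtain ⟨x, hxS, hxv, hxu⟩ := this
    obtain ⟨k, hk⟩ := hS'.1 v hvS' x hxS (Ne.symm hxv)
    rcases hk with ⟨hk, _⟩ | ⟨j, hji, hj, _⟩
    · exact hno x ((SimpleGraph.mem_edgeSet _).1 hk)
    · have h1 : i ≤ j := hmin j (by rw [hj]; simp)
      have h2 : j = i := le_antisymm hji h1
      rw [h2, hu, Sym2.eq_iff] at hj
      rcases hj with ⟨_, h3⟩ | ⟨h3, _⟩
      · exact hxu h3.symm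
      · exact hxv h3.symm
  obtain ⟨x, hx⟩ := hex
  -- the adversary gives the new edge the colour of the edge `vx`
  have hcinj : Function.Injective
      (fun j : Fin m => if j = i then χ s(v, x) else χ s(v, x) + 1 + j.val) := by
    intro a b hab
    by_cases ha : a = i <;> by_cases hb : b = i
    · rw [ha, hb]
    · simp only [ha, hb, if_true, if_false] at hab
      omega
    · simp only [ha, hb, if_true, if_false] at hab
      omega
    · simp only [ha, hb, if_false] at hab
      exact Fin.ext (by omega)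
  obtain ⟨T, hvT, huT, hT, hNT⟩ := hkey _ hcinj
  have hxT : x ∈ (((T.erase v).erase u : Finset (Fin n)) : Set (Fin n)) := by
    rw [← hNT]; exact hx
  simp only [Finset.coe_erase, Set.mem_sdiff, Finset.mem_coe, Set.mem_singleton_iff] at hxT
  obtain ⟨⟨hxT, hxv⟩, hxu⟩ := hxT
  refine hT.2 v hvT x hxT v hvT u huT (Ne.symm hxv) hiG.2 ?_ (χ s(v, x)) ⟨?_, ?_⟩
  · intro heq
    rw [Sym2.eq_iff] at heq
    rcases heq with ⟨_, h3⟩ | ⟨h3, _⟩
    · exact hxu h3
    · exact hiG.2 h3
  · exact Or.inl ⟨(SimpleGraph.mem_edgeSet _).2 hx, rfl⟩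
  · exact Or.inr ⟨i, le_refl _, hu, by simp⟩

theorem le_rwsat (n r : ℕ) (hr : 3 ≤ r) (hn : r ≤ n) : (r - 1) * n ≤ 2 * rwsat n r := by
  classical
  have hne : {k | ∃ (G : SimpleGraph (Fin n)) (χ : Sym2 (Fin n) → ℕ),
      WeaklyRainbowSaturated r G χ ∧ G.edgeSet.ncard = k}.Nonempty :=
    ⟨_, joinGraph n r, injCol n, joinGraph_saturated n r hr, rfl⟩
  obtain ⟨G, χ, hG, hcard⟩ := Nat.sInf_mem hne
  have hdeg : ∀ v, r - 1 ≤ G.degree v := by
    intro v
    have := degree_lower hr hn G χ hG v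
    rwa [Set.ncard_eq_toFinset_card' (G.neighborSet v), Set.toFinset_card,
      SimpleGraph.card_neighborSet_eq_degree] at this
  have hsum : ∑ v, G.degree v = 2 * G.edgeFinset.card := G.sum_degrees_eq_twice_card_edges
  have hE : G.edgeSet.ncard = G.edgeFinset.card := by
    rw [← SimpleGraph.coe_edgeFinset, Set.ncard_coe_finset]
  have : (r - 1) * n ≤ ∑ v : Fin n, G.degree v := by
    calc (r - 1) * n = ∑ _v : Fin n, (r - 1) := by simp [mul_comm]
      _ ≤ ∑ v, G.degree v := Finset.sum_le_sum fun v _ => hdeg v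
  unfold rwsat
  rw [← hcard, hE]
  omega

/-- **MP_d10f6f_co, Q1.** For every `r ≥ 3` and every `n` we have `rwsat(n, K_r) ≤ (r - 1) n`; in
particular there are constants `C`, `n₀` with `rwsat(n, K_r) ≤ r n + C` for all `n ≥ n₀`. Moreover
`(r - 1) n / 2 ≤ rwsat(n, K_r)` for all `n ≥ r`. -/
theorem result :
    (∀ r, 3 ≤ r → ∃ C n₀ : ℕ, ∀ n, n₀ ≤ n → rwsat n r ≤ r * n + C) ∧
    (∀ r, 3 ≤ r → ∀ n, rwsat n r ≤ (r - 1) * n) ∧
    (∀ r, 3 ≤ r → ∀ n, r ≤ n → (r - 1) * n ≤ 2 * rwsat n r) := by
  refine ⟨fun r hr => ⟨0, 0, fun n _ => ?_⟩, fun r hr n => rwsat_le n r hr,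
    fun r hr n hn => le_rwsat n r hr hn⟩
  have := rwsat_le n r hr
  have h2 : (r - 1) * n ≤ r * n := Nat.mul_le_mul_right n (Nat.sub_le r 1)
  omega

end Pool.Agent.Results.MP_d10f6f_co.WeakRainbow
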